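import Mathlib

/-!
# Solutions of the recurrence `X (i+1) = A i * X i + B i * X (i+d)`
-/

set_option autoImplicit false

namespace Pool.Agent.N816.Lin

open Finset

variable {K : Type*} [Field K]

/-- The space of the solutions. -/
def W (d : ℕ) (A B : ℕ → K) : Submodule K (ℕ → K) where
  carrier := {X | ∀ i, X (i + 1) = A i * X i + B i * X (i + d)}
  add_mem' := by
    intro X Y hX hY i
    simp only [Pi.add_apply]
    rw [hX i, hY i]; ring
  zero_mem' := by intro i; simp
  smul_mem' := by
    intro c X hX i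
    simp only [Pi.smul_apply, smul_eq_mul]
    rw [hX i]; ring

lemma mem_W {d : ℕ} {A B X : ℕ → K} :
    X ∈ W d A B ↔ ∀ i, X (i + 1) = A i * X i + B i * X (i + d) := Iff.rfl

/-- The solution with prescribed first `d` values. -/
noncomputable def ext (d : ℕ) (hd : 2 ≤ d) (A B v : ℕ → K) : ℕ → K
  | i => if h : i < d then v i else
      (ext d hd A B v (i - d + 1) - A (i - d) * ext d hd A B v (i - d)) / B (i - d)
termination_by i => i
decreasing_by all_goals omega

lemma ext_lt {d : ℕ} (hd : 2 ≤ d) (A B v : ℕ → K) {i : ℕ} (h : i < d) :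
    ext d hd A B v i = v i := by
  rw [ext, dif_pos h]

lemma ext_add {d : ℕ} (hd : 2 ≤ d) (A B v : ℕ → K) (i : ℕ) :
    ext d hd A B v (i + d) = (ext d hd A B v (i + 1) - A i * ext d hd A B v i) / B i := by
  rw [ext, dif_neg (by omega)]
  have h1 : i + d - d = i := by omega
  rw [h1]

lemma ext_mem {d : ℕ} (hd : 2 ≤ d) (A B v : ℕ → K) (hB : ∀ i, B i ≠ 0) :
    ext d hd A B v ∈ W d A B := by
  intro i
  rw [ext_add]
  field_simp [hB i]
  ring

lemma eq_zero_of_init {d : ℕ} (hd : 2 ≤ d) {A B X : ℕ → K} (hB : ∀ i, B i ≠ 0)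
    (hX : X ∈ W d A B) (h0 : ∀ i, i < d → X i = 0) : X = 0 := by
  funext i
  induction i using Nat.strong_induction_on with
  | _ i ih =>
    by_cases h : i < d
    · exact h0 i h
    · have h1 := hX (i - d)
      have h2 : i - d + d = i := by omega
      rw [h2, ih (i - d + 1) (by omega), ih (i - d) (by omega)] at h1
      simp only [Pi.zero_apply, mul_zero, zero_add] at h1
      rcases mul_eq_zero.1 h1.symm with h3 | h3
      · exact absurd h3 (hB _)
      · exact h3

/-- The first `d` values. -/
noncomputable def ev (d : ℕ) (A B : ℕ → K) (c : Fin d → ℕ) : W d A B →ₗ[K] (Fin d → K) where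
  toFun X := fun j => X.1 (c j)
  map_add' := by intro X Y; rfl
  map_smul' := by intro r X; rfl

lemma ev_inj {d : ℕ} {A B : ℕ → K} {c : Fin d → ℕ}
    (h : ∀ X ∈ W d A B, (∀ j, X (c j) = 0) → X = 0) : Function.Injective (ev d A B c) := by
  rw [← LinearMap.ker_eq_bot, LinearMap.ker_eq_bot']
  intro X hX
  apply Subtype.ext
  exact h X.1 X.2 (fun j => congrFun hX j)

lemma finrank_W {d : ℕ} (hd : 2 ≤ d) {A B : ℕ → K} (hB : ∀ i, B i ≠ 0) :
    Module.finrank K (W d A B) = d ∧ Module.Finite K (W d A B) := by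
  have hinj : Function.Injective (ev d A B (fun j => (j : ℕ))) := by
    apply ev_inj
    intro X hX h0
    exact eq_zero_of_init hd hB hX (fun i hi => h0 ⟨i, hi⟩)
  have hsurj : Function.Surjective (ev d A B (fun j => (j : ℕ))) := by
    intro v
    refine ⟨⟨ext d hd A B (fun i => if h : i < d then v ⟨i, h⟩ else 0), ext_mem hd _ _ _ hB⟩, ?_⟩
    funext j
    show ext d hd A B _ (j : ℕ) = v j
    rw [ext_lt hd _ _ _ j.2, dif_pos j.2]
  let e := LinearEquiv.ofBijective (ev d A B (fun j => (j : ℕ))) ⟨hinj, hsurj⟩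
  refine ⟨?_, Module.Finite.equiv e.symm⟩
  rw [LinearEquiv.finrank_eq e, Module.finrank_fin_fun]

/-- Coordinates with trivial kernel can be prescribed. -/
lemma exists_coord {d : ℕ} (hd : 2 ≤ d) {A B : ℕ → K} (hB : ∀ i, B i ≠ 0) {c : Fin d → ℕ}
    (h : ∀ X ∈ W d A B, (∀ j, X (c j) = 0) → X = 0) (v : Fin d → K) :
    ∃ X ∈ W d A B, ∀ j, X (c j) = v j := by
  obtain ⟨h1, h2⟩ := finrank_W hd hB
  have hs := (LinearMap.injective_iff_surjective_of_finrank_eq_finrank
    (f := ev d A B c) (by rw [h1, Module.finrank_fin_fun])).1 (ev_inj h)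
  obtain ⟨X, hX⟩ := hs v
  exact ⟨X.1, X.2, fun j => congrFun hX j⟩

/-- The relation between the products of the coefficients, from one special periodic solution. -/
lemma special {d : ℕ} (hd : 2 ≤ d) {A B X : ℕ → K} (hX : X ∈ W d A B) (h0 : X 0 = 1)
    (hz : ∀ j, 1 ≤ j → j < d → X (d * j) = 0) (hper : X (d * d) = X 1) :
    ∏ t ∈ range d, A t + (∏ t ∈ range d, B (t + d * (d - 1 - t))) * A 0 = 0 := by
  -- (1)
  have h1 : ∀ k j, 1 ≤ j → k + j ≤ d - 1 → X (k + d * j) = 0 := by
    intro k
    induction k with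
    | zero => intro j hj hk; rw [zero_add]; exact hz j hj (by omega)
    | succ k ih =>
      intro j hj hk
      have e1 : k + 1 + d * j = k + d * j + 1 := by ring
      have e2 : k + d * j + d = k + d * (j + 1) := by ring
      rw [e1, hX, e2, ih j hj (by omega), ih (j + 1) (by omega) (by omega)]
      ring
  -- (2)
  have h2 : ∀ k, k ≤ d - 1 → X k = ∏ t ∈ range k, A t := by
    intro k
    induction k with
    | zero => intro _; simpa using h0
    | succ k ih =>
      intro hk
      have e1 := h1 k 1 le_rfl (by omega)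
      rw [mul_one] at e1
      rw [hX, ih (by omega), e1, prod_range_succ]
      ring
  -- (3)
  have h3 : ∀ k, k ≤ d - 1 →
      X (k + d * (d - k)) = (∏ t ∈ range k, B (t + d * (d - 1 - t))) * X (d * d) := by
    intro k
    induction k with
    | zero => intro _; simp
    | succ k ih =>
      intro hk
      have e1 : k + 1 + d * (d - (k + 1)) = k + d * (d - 1 - k) + 1 := by
        have : d - (k + 1) = d - 1 - k := by omega
        rw [this]; ring
      have e2 : k + d * (d - 1 - k) + d = k + d * (d - k) := by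
        have : d - k = d - 1 - k + 1 := by omega
        rw [this]; ring
      rw [e1, hX, e2, ih (by omega), h1 k (d - 1 - k) (by omega) (by omega), prod_range_succ]
      ring
  have h4 : X d = 0 := by simpa using hz 1 le_rfl (by omega)
  have h5 := hX (d - 1)
  have e3 : d - 1 + 1 = d := by omega
  have e4 : d - 1 + d = d - 1 + d * (d - (d - 1)) := by
    have : d - (d - 1) = 1 := by omega
    rw [this, mul_one]
  rw [e4, h3 (d - 1) le_rfl, h2 (d - 1) le_rfl, e3, h4, hper] at h5
  have h6 : X 1 = A 0 := by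
    have := hX 0
    rw [zero_add, zero_add, h4, h0] at this
    rw [this]; ring
  rw [h6] at h5
  have e5 : ∏ t ∈ range d, A t = (∏ t ∈ range (d - 1), A t) * A (d - 1) := by
    conv_lhs => rw [← e3]
    rw [prod_range_succ]
  have e6 : ∏ t ∈ range d, B (t + d * (d - 1 - t)) =
      (∏ t ∈ range (d - 1), B (t + d * (d - 1 - t))) * B (d - 1) := by
    conv_lhs => rw [← e3]
    rw [prod_range_succ]
    have : d - 1 + 1 - 1 - (d - 1) = 0 := by omega
    rw [this]
    simp only [Nat.add_sub_cancel, mul_zero, add_zero]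
    rw [e3]
  rw [e5, e6]
  linear_combination -h5

end Pool.Agent.N816.Lin
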