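import Mathlib

/-!
# Solutions of the recurrence `Y i = Y (i+1) + β i * Y (i+d)`, `β` with period `d - 1`
-/

set_option autoImplicit false

namespace Pool.Agent.N816.Lin

open Finset Polynomial

variable {K : Type*} [Field K]

/-- The solutions. -/
def G (d : ℕ) (β Y : ℕ → K) : Prop := ∀ i, Y i = Y (i + 1) + β i * Y (i + d)

/-- The shift by `d - 1`. -/
noncomputable def D (d : ℕ) : Module.End K (ℕ → K) where
  toFun Y := fun j => Y (j + (d - 1))
  map_add' := by intro X Y; rfl
  map_smul' := by intro r X; rfl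

lemma D_apply (d : ℕ) (Y : ℕ → K) (j : ℕ) : D d Y j = Y (j + (d - 1)) := rfl

lemma D_pow (d : ℕ) (Y : ℕ → K) (m j : ℕ) : ((D d) ^ m) Y j = Y (j + m * (d - 1)) := by
  induction m generalizing j with
  | zero => simp
  | succ m ih =>
    rw [pow_succ', Module.End.mul_apply, D_apply, ih]
    congr 1; ring

lemma G_D {d : ℕ} {β Y : ℕ → K} (hβ : ∀ i, β (i + (d - 1)) = β i) (h : G d β Y) :
    G d β (D d Y) := by
  intro i
  rw [D_apply, D_apply, D_apply, h (i + (d - 1)), hβ]
  have e1 : i + (d - 1) + 1 = i + 1 + (d - 1) := by ring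
  have e2 : i + (d - 1) + d = i + d + (d - 1) := by ring
  rw [e1, e2]

lemma G_aeval {d : ℕ} {β Y : ℕ → K} (hβ : ∀ i, β (i + (d - 1)) = β i) (h : G d β Y)
    (Q : K[X]) : G d β (aeval (D d) Q Y) := by
  induction Q using Polynomial.induction_on' with
  | add P Q hP hQ =>
    intro i
    rw [map_add, LinearMap.add_apply, Pi.add_apply, Pi.add_apply, Pi.add_apply, hP i, hQ i]
    ring
  | monomial n a =>
    have key : ∀ m, G d β (((D d) ^ m) Y) := by
      intro m
      induction m with
      | zero => simpa using h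
      | succ m ih => rw [pow_succ', Module.End.mul_apply]; exact G_D hβ ih
    intro i
    rw [aeval_monomial, Module.End.mul_apply, Module.algebraMap_end_apply, Pi.smul_apply,
      Pi.smul_apply, Pi.smul_apply, smul_eq_mul, smul_eq_mul, smul_eq_mul, key n i]
    ring

lemma aeval_apply {d : ℕ} (Y : ℕ → K) (Q : K[X]) {N : ℕ} (hN : Q.natDegree < N) (j : ℕ) :
    aeval (D d) Q Y j = ∑ m ∈ range N, Q.coeff m * Y (j + m * (d - 1)) := by
  rw [aeval_eq_sum_range' hN, LinearMap.sum_apply, Finset.sum_apply]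
  apply sum_congr rfl
  intro m _
  rw [LinearMap.smul_apply, Pi.smul_apply, D_pow, smul_eq_mul]

lemma G_step {d : ℕ} (hd : 1 ≤ d) {β Y : ℕ → K} (hβ : ∀ i, β (i + (d - 1)) = β i)
    (h : G d β Y) (Q : K[X]) (j : ℕ) :
    aeval (D d) Q Y j = aeval (D d) (Q * (1 + C (β j) * X)) Y (j + 1) := by
  have h1 := G_aeval hβ h Q j
  have e : Q * (1 + C (β j) * X) = (1 + C (β j) * X) * Q := mul_comm _ _
  rw [e, map_mul, Module.End.mul_apply, map_add, map_one, map_mul, aeval_X, aeval_C,
    LinearMap.add_apply, Module.End.one_apply, Pi.add_apply, Module.End.mul_apply,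
    Module.algebraMap_end_apply, Pi.smul_apply, smul_eq_mul, D_apply]
  have e1 : j + 1 + (d - 1) = j + d := by omega
  rw [e1]
  exact h1

lemma G_prod {d : ℕ} (hd : 1 ≤ d) {β Y : ℕ → K} (hβ : ∀ i, β (i + (d - 1)) = β i)
    (h : G d β Y) (i m : ℕ) :
    Y i = aeval (D d) (∏ r ∈ range m, (1 + C (β (i + r)) * X)) Y (i + m) := by
  induction m with
  | zero => simp
  | succ m ih =>
    rw [prod_range_succ, ← add_assoc, ← G_step hd hβ h]
    exact ih

/-- The polynomial `∏ (1 + β_r X)`. -/
noncomputable def Pol (d : ℕ) (β : ℕ → K) : K[X] := ∏ r ∈ range (d - 1), (1 + C (β r) * X)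

lemma beta_mul {d : ℕ} {β : ℕ → K} (hβ : ∀ i, β (i + (d - 1)) = β i) (s r : ℕ) :
    β (s * (d - 1) + r) = β r := by
  induction s with
  | zero => simp
  | succ s ih =>
    have : (s + 1) * (d - 1) + r = s * (d - 1) + r + (d - 1) := by ring
    rw [this, hβ, ih]

lemma natDegree_Pol {d : ℕ} (hd : 1 ≤ d) (β : ℕ → K) : (Pol d β).natDegree < d := by
  have h1 : (Pol d β).natDegree ≤ ∑ r ∈ range (d - 1), 1 := by
    refine (natDegree_prod_le _ _).trans (sum_le_sum fun r _ => ?_)
    compute_degree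
  rw [sum_const, card_range, smul_eq_mul, mul_one] at h1
  omega

lemma coeff_zero_Pol {d : ℕ} (β : ℕ → K) : (Pol d β).coeff 0 = 1 := by
  rw [coeff_zero_eq_eval_zero, Pol, eval_prod]
  simp

/-- The recurrence along the multiples of `d - 1`. -/
lemma G_mult {d : ℕ} (hd : 1 ≤ d) {β Y : ℕ → K} (hβ : ∀ i, β (i + (d - 1)) = β i)
    (h : G d β Y) (s : ℕ) :
    Y (s * (d - 1)) = ∑ m ∈ range d, (Pol d β).coeff m * Y ((s + 1 + m) * (d - 1)) := by
  have h1 := G_prod hd hβ h (s * (d - 1)) (d - 1)
  have e : ∏ r ∈ range (d - 1), (1 + C (β (s * (d - 1) + r)) * X) = Pol d β := by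
    apply prod_congr rfl
    intro r _
    rw [beta_mul hβ]
  rw [e, aeval_apply Y _ (natDegree_Pol hd β)] at h1
  rw [h1]
  apply sum_congr rfl
  intro m _
  congr 2; ring

/-- A solution that vanishes at the multiples of `d - 1` is zero. -/
lemma G_zero {d : ℕ} (hd : 2 ≤ d) {β Y : ℕ → K} (h : G d β Y)
    (h0 : ∀ s, Y (s * (d - 1)) = 0) : ∀ i, Y i = 0 := by
  have key : ∀ r s, r ≤ s * (d - 1) → Y (s * (d - 1) - r) = 0 := by
    intro r
    induction r with
    | zero => intro s _; simpa using h0 s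
    | succ r ih =>
      intro s hs
      rw [h]
      have e1 : s * (d - 1) - (r + 1) + 1 = s * (d - 1) - r := by omega
      have e2 : s * (d - 1) - (r + 1) + d = (s + 1) * (d - 1) - r := by
        have : (s + 1) * (d - 1) = s * (d - 1) + (d - 1) := by ring
        rw [this]; omega
      rw [e1, e2, ih s (by omega), ih (s + 1) (by
        have : (s + 1) * (d - 1) = s * (d - 1) + (d - 1) := by ring
        rw [this]; omega)]
      ring
  intro i
  have h1 : i ≤ i * (d - 1) := Nat.le_mul_of_pos_right _ (by omega)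
  have := key (i * (d - 1) - i) i (by omega)
  have e : i * (d - 1) - (i * (d - 1) - i) = i := by omega
  rwa [e] at this

lemma coeff_top_Pol {d : ℕ} {β : ℕ → K} : (Pol d β).coeff (d - 1) = ∏ r ∈ range (d - 1), β r := by
  have h : ∀ m : ℕ, (∏ r ∈ range m, (1 + C (β r) * X)).coeff m = ∏ r ∈ range m, β r ∧
      (∏ r ∈ range m, (1 + C (β r) * X)).natDegree ≤ m := by
    intro m
    induction m with
    | zero => simp
    | succ m ih =>
      rw [prod_range_succ, prod_range_succ]
      constructor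
      · rw [mul_add, mul_one, coeff_add, mul_left_comm, coeff_C_mul, coeff_mul_X, ih.1,
          coeff_eq_zero_of_natDegree_lt (by omega)]
        ring
      · refine natDegree_mul_le.trans ?_
        have : (1 + C (β m) * X : K[X]).natDegree ≤ 1 := by compute_degree
        omega
  exact (h (d - 1)).1

/-- A solution that vanishes at the first `d` multiples of `d - 1` is zero. -/
lemma G_zero' {d : ℕ} (hd : 2 ≤ d) {β Y : ℕ → K} (hβ : ∀ i, β (i + (d - 1)) = β i)
    (hne : ∀ i, β i ≠ 0) (h : G d β Y)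
    (h0 : ∀ s, s < d → Y (s * (d - 1)) = 0) : ∀ i, Y i = 0 := by
  apply G_zero hd h
  intro s
  induction s using Nat.strong_induction_on with
  | _ s ih =>
    by_cases hs : s < d
    · exact h0 s hs
    · have h1 := G_mult (by omega) hβ h (s - d)
      have e : d = d - 1 + 1 := by omega
      rw [ih (s - d) (by omega)] at h1
      rw [e, sum_range_succ, ← e] at h1
      have h2 : ∑ m ∈ range (d - 1), (Pol d β).coeff m * Y ((s - d + 1 + m) * (d - 1)) = 0 := by
        apply sum_eq_zero
        intro m hm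
        rw [ih (s - d + 1 + m) (by have := mem_range.1 hm; omega), mul_zero]
      rw [h2, zero_add] at h1
      have e3 : s - d + 1 + (d - 1) = s := by omega
      rw [e3] at h1
      rcases mul_eq_zero.1 h1.symm with h3 | h3
      · rw [coeff_top_Pol] at h3
        exact absurd h3 (prod_ne_zero_iff.2 fun r _ => hne r)
      · exact h3

/-- The coefficients of `Pol`, from one special solution with `Y (s (d-1) + n) = N⁻¹ Y (s (d-1))`. -/
lemma coeff_of_special {d : ℕ} (hd : 2 ≤ d) {β Y : ℕ → K} (hβ : ∀ i, β (i + (d - 1)) = β i)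
    (h : G d β Y) {N : K} (hN : N ≠ 0)
    (hper : ∀ s, Y ((s + (d + 1)) * (d - 1)) = N⁻¹ * Y (s * (d - 1)))
    (h0 : Y 0 = 1) (hz : ∀ s, 1 ≤ s → s < d → Y (s * (d - 1)) = 0) :
    N = (-1) ^ (d - 1) ∧ ∀ m, m < d → (Pol d β).coeff m = (-1) ^ m := by
  have e : d = d - 1 + 1 := by omega
  set c : ℕ → K := fun m => (Pol d β).coeff m with hc
  have hc0 : c 0 = 1 := coeff_zero_Pol β
  set y : ℕ → K := fun s => Y (s * (d - 1)) with hy
  have hrec : ∀ s, y s = ∑ m ∈ range d, c m * y (s + 1 + m) := fun s => G_mult (by omega) hβ h s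
  have hy0 : y 0 = 1 := by simp only [hy, zero_mul]; exact h0
  have hyz : ∀ s, 1 ≤ s → s < d → y s = 0 := hz
  have hyp : ∀ s, y (s + (d + 1)) = N⁻¹ * y s := hper
  have hy1 : y (d + 1) = N⁻¹ := by
    have := hyp 0
    rw [zero_add, hy0, mul_one] at this
    exact this
  -- `y d = N⁻¹`
  have hyd : y d = N⁻¹ := by
    rw [hrec d]
    rw [sum_eq_single_of_mem 0 (mem_range.2 (by omega))]
    · rw [add_zero, hy1, hc0, one_mul]
    · intro m hm hm0
      have h1 : d + 1 + m = m + (d + 1) := by ring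
      rw [h1, hyp, hyz m (by omega) (mem_range.1 hm)]
      ring
  -- the top coefficient
  have htop : c (d - 1) = N := by
    have h1 := hrec 0
    rw [hy0, sum_eq_single_of_mem (d - 1) (mem_range.2 (by omega))] at h1
    · have e1 : 0 + 1 + (d - 1) = d := by omega
      rw [e1, hyd] at h1
      field_simp at h1
      exact h1.symm
    · intro m hm hm0
      have := mem_range.1 hm
      rw [hyz (0 + 1 + m) (by omega) (by omega), mul_zero]
  -- neighbours
  have hstep : ∀ m, m + 1 < d → c (m + 1) = - c m := by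
    intro m hm
    have h1 := hrec (d - 1 - m)
    rw [hyz (d - 1 - m) (by omega) (by omega)] at h1
    have h2 : ∑ j ∈ range d, c j * y (d - 1 - m + 1 + j) = c m * y d + c (m + 1) * y (d + 1) := by
      rw [← sum_subset (s₁ := {m, m + 1})]
      · rw [sum_pair (by omega)]
        have e1 : d - 1 - m + 1 + m = d := by omega
        have e2 : d - 1 - m + 1 + (m + 1) = d + 1 := by omega
        rw [e1, e2]
      · intro j hj
        rw [mem_insert, mem_singleton] at hj
        rw [mem_range]; omega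
      · intro j hj hjn
        rw [mem_insert, mem_singleton, not_or] at hjn
        rw [mem_range] at hj
        by_cases hlt : j < m
        · rw [hyz (d - 1 - m + 1 + j) (by omega) (by omega), mul_zero]
        · have e3 : d - 1 - m + 1 + j = (j - m - 1) + (d + 1) := by omega
          rw [e3, hyp, hyz (j - m - 1) (by omega) (by omega)]
          ring
    rw [h2, hyd, hy1] at h1
    have h3 : N⁻¹ ≠ 0 := inv_ne_zero hN
    have h4 : (c m + c (m + 1)) * N⁻¹ = 0 := by rw [add_mul]; exact h1.symm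
    rcases mul_eq_zero.1 h4 with h5 | h5
    · linear_combination h5
    · exact absurd h5 h3
  have hall : ∀ m, m < d → c m = (-1) ^ m := by
    intro m
    induction m with
    | zero => intro _; rw [hc0, pow_zero]
    | succ m ih =>
      intro hm
      rw [hstep m hm, ih (by omega), pow_succ]; ring
  exact ⟨by rw [← htop]; exact hall _ (by omega), hall⟩

/-- Conversely, the solutions are quasi-periodic if `Pol` has the coefficients `(-1)^m`. -/
lemma quasi_of_coeff {d : ℕ} (hd : 2 ≤ d) {β Y : ℕ → K} (hβ : ∀ i, β (i + (d - 1)) = β i)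
    (h : G d β Y) (hco : ∀ m, m < d → (Pol d β).coeff m = (-1) ^ m) :
    ∀ i, Y (i + (d + 1) * (d - 1)) = (-1) ^ (d - 1) * Y i := by
  have e : d = d - 1 + 1 := by omega
  -- at the multiples
  have h1 : ∀ s, Y ((s + (d + 1)) * (d - 1)) = (-1) ^ (d - 1) * Y (s * (d - 1)) := by
    intro s
    have h2 := G_mult (by omega) hβ h s
    have h3 := G_mult (by omega) hβ h (s + 1)
    have h4 : ∑ m ∈ range d, (Pol d β).coeff m * Y ((s + 1 + m) * (d - 1)) =
        ∑ m ∈ range d, (-1) ^ m * Y ((s + 1 + m) * (d - 1)) :=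
      sum_congr rfl fun m hm => by rw [hco m (mem_range.1 hm)]
    have h5 : ∑ m ∈ range d, (Pol d β).coeff m * Y ((s + 1 + 1 + m) * (d - 1)) =
        ∑ m ∈ range d, (-1) ^ m * Y ((s + 1 + 1 + m) * (d - 1)) :=
      sum_congr rfl fun m hm => by rw [hco m (mem_range.1 hm)]
    rw [h4] at h2
    rw [h5] at h3
    -- telescoping
    have h6 : ∀ M, ∑ m ∈ range M, (-1 : K) ^ m * Y ((s + 1 + m) * (d - 1)) +
        ∑ m ∈ range M, (-1 : K) ^ m * Y ((s + 1 + 1 + m) * (d - 1)) =
        Y ((s + 1) * (d - 1)) - (-1) ^ M * Y ((s + 1 + M) * (d - 1)) := by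
      intro M
      induction M with
      | zero => simp
      | succ M ih =>
        rw [sum_range_succ, sum_range_succ]
        have e1 : s + 1 + 1 + M = s + 1 + (M + 1) := by ring
        rw [e1, pow_succ]
        linear_combination ih
    have h7 := h6 d
    rw [← h2, ← h3] at h7
    have h8 : Y (s * (d - 1)) = - (-1) ^ d * Y ((s + 1 + d) * (d - 1)) := by
      linear_combination h7
    have e9 : s + (d + 1) = s + 1 + d := by ring
    rw [e9, h8]
    have e10 : (-1 : K) ^ d = (-1) ^ (d - 1) * (-1) := by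
      conv_lhs => rw [e, pow_succ]
    have e11 : ((-1 : K) ^ (d - 1)) * (-1) ^ (d - 1) = 1 := by
      rw [← mul_pow]; simp
    rw [e10]
    linear_combination (-Y ((s + 1 + d) * (d - 1))) * e11
  -- everywhere
  have hZ : G d β (fun i => Y (i + (d + 1) * (d - 1)) - (-1) ^ (d - 1) * Y i) := by
    intro i
    show Y (i + (d + 1) * (d - 1)) - (-1) ^ (d - 1) * Y i = (Y (i + 1 + (d + 1) * (d - 1)) -
      (-1) ^ (d - 1) * Y (i + 1)) + β i * (Y (i + d + (d + 1) * (d - 1)) -
      (-1) ^ (d - 1) * Y (i + d))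
    have e1 : β (i + (d + 1) * (d - 1)) = β i := by
      rw [add_comm]; exact beta_mul hβ (d + 1) i
    have e2 : i + (d + 1) * (d - 1) + 1 = i + 1 + (d + 1) * (d - 1) := by ring
    have e3 : i + (d + 1) * (d - 1) + d = i + d + (d + 1) * (d - 1) := by ring
    have h2 := h (i + (d + 1) * (d - 1))
    have h3 := h i
    rw [e1, e2, e3] at h2
    rw [h2]
    linear_combination (-(-1) ^ (d - 1)) * h3
  have h0 := G_zero hd hZ (fun s => by
    have := h1 s
    have e4 : s * (d - 1) + (d + 1) * (d - 1) = (s + (d + 1)) * (d - 1) := by ring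
    show Y (s * (d - 1) + (d + 1) * (d - 1)) - (-1) ^ (d - 1) * Y (s * (d - 1)) = 0
    rw [e4, this]; ring)
  intro i
  exact sub_eq_zero.1 (h0 i)

end Pool.Agent.N816.Lin
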