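import Mathlib
import Pool.Agent.N816.Lin.A

/-!
# The kernel of the trinomial and the solutions of the recurrence
-/

set_option autoImplicit false

namespace Pool.Agent.N816.Lin

open Finset

variable {k K : Type*} [Field k] [Field K] [Algebra k K] [FiniteDimensional k K] [IsGalois k K]

lemma pow_finrank (τ : K ≃ₐ[k] K) : τ ^ Module.finrank k K = 1 := by
  rw [← IsGalois.card_aut_eq_finrank k K]
  exact pow_card_eq_one'

lemma orderOf_eq {τ : K ≃ₐ[k] K} (hτ : ∀ g : K ≃ₐ[k] K, g ∈ Subgroup.zpowers τ) :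
    orderOf τ = Module.finrank k K := by
  rw [← IsGalois.card_aut_eq_finrank k K]
  exact orderOf_eq_card_of_forall_mem_zpowers hτ

lemma inj_pow {τ : K ≃ₐ[k] K} (hτ : ∀ g : K ≃ₐ[k] K, g ∈ Subgroup.zpowers τ) :
    Set.InjOn (fun i : ℕ => τ ^ i) (range (Module.finrank k K)) := by
  intro i hi j hj hij
  rw [coe_range, Set.mem_Iio, ← orderOf_eq hτ] at hi hj
  exact pow_injOn_Iio_orderOf hi hj hij

lemma image_pow {τ : K ≃ₐ[k] K} (hτ : ∀ g : K ≃ₐ[k] K, g ∈ Subgroup.zpowers τ) :
    ∀ g : K ≃ₐ[k] K, ∃ i, i < Module.finrank k K ∧ τ ^ i = g := by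
  classical
  intro g
  have h : IsOfFinOrder τ := isOfFinOrder_of_finite τ
  have h1 := (h.mem_zpowers_iff_mem_range_orderOf (y := g)).1 (hτ g)
  rw [mem_image] at h1
  obtain ⟨i, hi, h2⟩ := h1
  exact ⟨i, by rw [← orderOf_eq hτ]; exact mem_range.1 hi, h2⟩

lemma sum_pow {M : Type*} [AddCommMonoid M] {τ : K ≃ₐ[k] K}
    (hτ : ∀ g : K ≃ₐ[k] K, g ∈ Subgroup.zpowers τ) (f : (K ≃ₐ[k] K) → M) :
    ∑ i ∈ range (Module.finrank k K), f (τ ^ i) = ∑ g : K ≃ₐ[k] K, f g := by
  apply sum_bij (fun i _ => τ ^ i)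
  · intro i _; exact mem_univ _
  · intro i hi j hj h; exact inj_pow hτ (by simpa using hi) (by simpa using hj) h
  · intro g _
    obtain ⟨i, hi, h⟩ := image_pow hτ g
    exact ⟨i, mem_range.2 hi, h⟩
  · intro i _; rfl

lemma prod_pow {M : Type*} [CommMonoid M] {τ : K ≃ₐ[k] K}
    (hτ : ∀ g : K ≃ₐ[k] K, g ∈ Subgroup.zpowers τ) (f : (K ≃ₐ[k] K) → M) :
    ∏ i ∈ range (Module.finrank k K), f (τ ^ i) = ∏ g : K ≃ₐ[k] K, f g := by
  apply prod_bij (fun i _ => τ ^ i)
  · intro i _; exact mem_univ _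
  · intro i hi j hj h; exact inj_pow hτ (by simpa using hi) (by simpa using hj) h
  · intro g _
    obtain ⟨i, hi, h⟩ := image_pow hτ g
    exact ⟨i, mem_range.2 hi, h⟩
  · intro i _; rfl

lemma prod_norm {τ : K ≃ₐ[k] K} (hτ : ∀ g : K ≃ₐ[k] K, g ∈ Subgroup.zpowers τ) (a : K) :
    ∏ i ∈ range (Module.finrank k K), (τ ^ i) a = algebraMap k K (Algebra.norm k a) := by
  rw [Algebra.norm_eq_prod_automorphisms, ← prod_pow hτ (fun g => g a)]

lemma fixed {τ : K ≃ₐ[k] K} (hτ : ∀ g : K ≃ₐ[k] K, g ∈ Subgroup.zpowers τ) {x : K}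
    (hx : τ x = x) : ∃ c : k, algebraMap k K c = x := by
  have h : ∀ g : K ≃ₐ[k] K, g x = x := by
    intro g
    obtain ⟨i, -, rfl⟩ := image_pow hτ g
    have : ∀ i : ℕ, (τ ^ i) x = x := by
      intro i
      induction i with
      | zero => simp
      | succ i ih => rw [pow_succ, AlgEquiv.mul_apply, hx, ih]
    exact this i
  exact (IsGalois.mem_range_algebraMap_iff_fixed x).2 h

/-- The kernel of `x ↦ a x + b τ^d(x) - τ(x)`. -/
def U (τ : K ≃ₐ[k] K) (d : ℕ) (a b : K) : Submodule k K where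
  carrier := {x | τ x = a * x + b * (τ ^ d) x}
  add_mem' := by
    intro x y hx hy
    simp only [Set.mem_ofPred_eq] at hx hy ⊢
    rw [map_add, map_add, hx, hy]; ring
  zero_mem' := by simp
  smul_mem' := by
    intro c x hx
    simp only [Set.mem_ofPred_eq] at hx ⊢
    rw [map_smul, map_smul, hx, smul_add, mul_smul_comm, mul_smul_comm]

omit [FiniteDimensional k K] [IsGalois k K] in
lemma mem_U {τ : K ≃ₐ[k] K} {d : ℕ} {a b x : K} :
    x ∈ U τ d a b ↔ τ x = a * x + b * (τ ^ d) x := Iff.rfl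

/-- The sequence of the conjugates. -/
def sq (τ : K ≃ₐ[k] K) (x : K) : ℕ → K := fun i => (τ ^ i) x

omit [FiniteDimensional k K] [IsGalois k K] in
lemma sq_mem {τ : K ≃ₐ[k] K} {d : ℕ} {a b x : K} (hx : x ∈ U τ d a b) :
    sq τ x ∈ W d (sq τ a) (sq τ b) := by
  intro i
  simp only [sq]
  rw [pow_succ, AlgEquiv.mul_apply, mem_U.1 hx, map_add, map_mul, map_mul, pow_add,
    AlgEquiv.mul_apply]

lemma sq_per (τ : K ≃ₐ[k] K) (x : K) (i : ℕ) : sq τ x (i + Module.finrank k K) = sq τ x i := by
  simp only [sq]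
  rw [pow_add, pow_finrank, mul_one]

/-- The sequences of `k`-linearly independent elements are `K`-linearly independent. -/
lemma indep {τ : K ≃ₐ[k] K} (hτ : ∀ g : K ≃ₐ[k] K, g ∈ Subgroup.zpowers τ) {ι : Type*}
    [Fintype ι] {u : ι → K} (hu : LinearIndependent k u) :
    LinearIndependent K (fun j => sq τ (u j)) := by
  rw [Fintype.linearIndependent_iff] at hu ⊢
  intro c hc
  -- apply the inverse automorphisms
  have h1 : ∀ g : K ≃ₐ[k] K, ∑ j, g (c j) * u j = 0 := by
    intro g
    obtain ⟨i, -, hi⟩ := image_pow hτ g⁻¹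
    have h2 := congrFun hc i
    simp only [Finset.sum_apply, Pi.smul_apply, smul_eq_mul, sq, Pi.zero_apply] at h2
    rw [hi] at h2
    have h3 := congrArg g h2
    rw [map_sum, map_zero] at h3
    rw [← h3]
    apply sum_congr rfl
    intro j _
    rw [map_mul]
    congr 1
    rw [← AlgEquiv.mul_apply, mul_inv_cancel, AlgEquiv.one_apply]
  have h4 : ∀ e : K, ∀ j, Algebra.trace k K (e * c j) = 0 := by
    intro e
    apply hu
    have : ∑ j, (algebraMap k K (Algebra.trace k K (e * c j))) * u j = 0 := by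
      have h5 : ∑ j, (algebraMap k K (Algebra.trace k K (e * c j))) * u j =
          ∑ g : K ≃ₐ[k] K, g e * ∑ j, g (c j) * u j := by
        simp_rw [mul_sum]
        rw [sum_comm]
        apply sum_congr rfl
        intro j _
        rw [trace_eq_sum_automorphisms, sum_mul]
        apply sum_congr rfl
        intro g _
        rw [map_mul, mul_assoc]
      rw [h5]
      apply sum_eq_zero
      intro g _
      rw [h1 g, mul_zero]
    rw [← this]
    apply sum_congr rfl
    intro j _
    rw [Algebra.smul_def]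
  intro j
  have := (traceForm_nondegenerate k K).1 (c j)
  apply this
  intro e
  rw [Algebra.traceForm_apply, mul_comm]
  exact h4 e j

/-- If the kernel has dimension `d`, all the solutions are periodic. -/
lemma periodic_of_finrank {τ : K ≃ₐ[k] K} (hτ : ∀ g : K ≃ₐ[k] K, g ∈ Subgroup.zpowers τ)
    {d : ℕ} (hd : 2 ≤ d) {a b : K} (hb : b ≠ 0) (h : Module.finrank k (U τ d a b) = d) :
    ∀ X ∈ W d (sq τ a) (sq τ b), ∀ i, X (i + Module.finrank k K) = X i := by
  have hB : ∀ i, sq τ b i ≠ 0 := by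
    intro i
    simp only [sq]
    exact (map_ne_zero_iff _ (τ ^ i).injective).2 hb
  obtain ⟨h1, h2⟩ := finrank_W (A := sq τ a) hd hB
  set bas := Module.finBasis k (U τ d a b)
  have hli : LinearIndependent k (fun j => ((bas j : U τ d a b) : K)) := by
    have := bas.linearIndependent
    exact this.map' (U τ d a b).subtype (Submodule.ker_subtype _)
  have hsq := indep hτ hli
  set v : Fin (Module.finrank k (U τ d a b)) → W d (sq τ a) (sq τ b) :=
    fun j => ⟨sq τ (bas j), sq_mem (bas j).2⟩ with hv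
  have hv1 : LinearIndependent K v := by
    apply LinearIndependent.of_comp (W d (sq τ a) (sq τ b)).subtype
    exact hsq
  have hspan := hv1.span_eq_top_of_card_eq_finrank' (by rw [Fintype.card_fin, h, h1])
  intro X hX i
  have hmem : (⟨X, hX⟩ : W d (sq τ a) (sq τ b)) ∈ Submodule.span K (Set.range v) := by
    rw [hspan]; trivial
  have key : ∀ Z ∈ Submodule.span K (Set.range v),
      (Z : ℕ → K) (i + Module.finrank k K) = (Z : ℕ → K) i := by
    intro Z hZ
    induction hZ using Submodule.span_induction with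
    | mem Z hZ =>
      obtain ⟨j, rfl⟩ := hZ
      exact sq_per τ _ i
    | zero => rfl
    | add Y Z _ _ hY hZ =>
      show (Y : ℕ → K) _ + (Z : ℕ → K) _ = (Y : ℕ → K) _ + (Z : ℕ → K) _
      rw [hY, hZ]
    | smul c Z _ hZ =>
      show c * (Z : ℕ → K) _ = c * (Z : ℕ → K) _
      rw [hZ]
  exact key _ hmem

lemma finrank_le {τ : K ≃ₐ[k] K} (hτ : ∀ g : K ≃ₐ[k] K, g ∈ Subgroup.zpowers τ)
    {d : ℕ} (hd : 2 ≤ d) {a b : K} (hb : b ≠ 0) : Module.finrank k (U τ d a b) ≤ d := by
  have hB : ∀ i, sq τ b i ≠ 0 := by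
    intro i
    simp only [sq]
    exact (map_ne_zero_iff _ (τ ^ i).injective).2 hb
  obtain ⟨h1, h2⟩ := finrank_W (A := sq τ a) hd hB
  set bas := Module.finBasis k (U τ d a b)
  have hli : LinearIndependent k (fun j => ((bas j : U τ d a b) : K)) := by
    have := bas.linearIndependent
    exact this.map' (U τ d a b).subtype (Submodule.ker_subtype _)
  have hsq := indep hτ hli
  set v : Fin (Module.finrank k (U τ d a b)) → W d (sq τ a) (sq τ b) :=
    fun j => ⟨sq τ (bas j), sq_mem (bas j).2⟩ with hv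
  have hv1 : LinearIndependent K v := by
    apply LinearIndependent.of_comp (W d (sq τ a) (sq τ b)).subtype
    exact hsq
  have := hv1.fintype_card_le_finrank
  rwa [Fintype.card_fin, h1] at this

/-- The semilinear shift on the solutions. -/
def Phi (τ : K ≃ₐ[k] K) (j : ℕ) (X : ℕ → K) : ℕ → K := fun i => (τ ^ j)⁻¹ (X (i + j))

omit [FiniteDimensional k K] [IsGalois k K] in
lemma Phi_mem {τ : K ≃ₐ[k] K} {d : ℕ} {a b : K} {X : ℕ → K} (hX : X ∈ W d (sq τ a) (sq τ b))
    (j : ℕ) : Phi τ j X ∈ W d (sq τ a) (sq τ b) := by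
  intro i
  simp only [Phi]
  have h := hX (i + j)
  have e1 : i + j + 1 = i + 1 + j := by ring
  have e2 : i + j + d = i + d + j := by ring
  rw [e1, e2] at h
  rw [h, map_add, map_mul, map_mul]
  have e3 : ∀ x : K, (τ ^ j)⁻¹ (sq τ x (i + j)) = sq τ x i := by
    intro x
    simp only [sq]
    rw [add_comm, pow_add, AlgEquiv.mul_apply, ← AlgEquiv.mul_apply, inv_mul_cancel,
      AlgEquiv.one_apply]
  rw [e3, e3]

/-- If all the solutions are periodic, the kernel has dimension at least `d`. -/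
lemma le_finrank {τ : K ≃ₐ[k] K} (hτ : ∀ g : K ≃ₐ[k] K, g ∈ Subgroup.zpowers τ)
    {d : ℕ} (hd : 2 ≤ d) {a b : K} (hb : b ≠ 0)
    (h : ∀ X ∈ W d (sq τ a) (sq τ b), ∀ i, X (i + Module.finrank k K) = X i) :
    d ≤ Module.finrank k (U τ d a b) := by
  have hB : ∀ i, sq τ b i ≠ 0 := by
    intro i
    simp only [sq]
    exact (map_ne_zero_iff _ (τ ^ i).injective).2 hb
  obtain ⟨h1, h2⟩ := finrank_W (A := sq τ a) hd hB
  set n := Module.finrank k K with hn
  set bas := Module.finBasis k (U τ d a b)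
  set v : Fin (Module.finrank k (U τ d a b)) → W d (sq τ a) (sq τ b) :=
    fun j => ⟨sq τ (bas j), sq_mem (bas j).2⟩ with hv
  -- the sequences of all elements of the kernel are in the span
  have hsp : ∀ x (hx : x ∈ U τ d a b), (⟨sq τ x, sq_mem hx⟩ : W d (sq τ a) (sq τ b)) ∈
      Submodule.span K (Set.range v) := by
    intro x hx
    have h3 := bas.sum_repr ⟨x, hx⟩
    have h4 : (⟨sq τ x, sq_mem hx⟩ : W d (sq τ a) (sq τ b)) =
        ∑ j, (algebraMap k K (bas.repr ⟨x, hx⟩ j)) • v j := by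
      apply Subtype.ext
      funext i
      rw [Submodule.coe_sum, Finset.sum_apply]
      simp only [hv, Submodule.coe_smul, Pi.smul_apply, smul_eq_mul, sq]
      have h5 := congrArg (fun z : U τ d a b => (τ ^ i) (z : K)) h3
      simp only [Submodule.coe_sum, Submodule.coe_smul, map_sum] at h5
      rw [← h5]
      apply sum_congr rfl
      intro j _
      rw [map_smul, Algebra.smul_def]
    rw [h4]
    exact Submodule.sum_mem _ fun j _ => Submodule.smul_mem _ _ (Submodule.subset_span ⟨j, rfl⟩)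
  -- the span is everything
  have htop : Submodule.span K (Set.range v) = ⊤ := by
    by_contra hne
    obtain ⟨φ, hφ, hker⟩ := Submodule.exists_le_ker_of_lt_top _ (lt_top_iff_ne_top.2 hne)
    apply hφ
    ext ⟨X, hX⟩
    -- the traces
    have h6 : ∀ c : K, ∑ j ∈ range n, (τ ^ j)⁻¹ c * φ ⟨Phi τ j X, Phi_mem hX j⟩ = 0 := by
      intro c
      set Z : ℕ → K := fun i => ∑ j ∈ range n, (τ ^ j)⁻¹ c * Phi τ j X i with hZ
      have hZ1 : ∀ i, Z (i + 1) = τ (Z i) := by
        intro i
        simp only [hZ, map_sum, map_mul]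
        have e1 : ∀ j, τ ((τ ^ (j + 1))⁻¹ c) * τ (Phi τ (j + 1) X i) =
            (τ ^ j)⁻¹ c * Phi τ j X (i + 1) := by
          intro j
          simp only [Phi]
          have e2 : ∀ x : K, τ ((τ ^ (j + 1))⁻¹ x) = (τ ^ j)⁻¹ x := by
            intro x
            rw [← AlgEquiv.mul_apply]
            congr 1
            rw [pow_succ, mul_inv_rev, mul_inv_cancel_left]
          rw [e2, e2]
          congr 2; congr 1; ring
        set f : ℕ → K := fun j => τ ((τ ^ j)⁻¹ c) * τ (Phi τ j X i) with hf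
        have e3 : ∑ j ∈ range n, f j = ∑ j ∈ range n, f (j + 1) := by
          have h7 := sum_range_succ f n
          have h8 := sum_range_succ' f n
          have h9 : f n = f 0 := by
            simp only [hf, Phi]
            rw [hn, pow_finrank, ← hn, h X hX, pow_zero, add_zero]
          rw [h7, h9] at h8
          exact add_right_cancel h8
        rw [e3]
        apply sum_congr rfl
        intro j _
        exact (e1 j).symm
      have hZ2 : ∀ i, Z i = (τ ^ i) (Z 0) := by
        intro i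
        induction i with
        | zero => simp
        | succ i ih => rw [hZ1, ih, pow_succ', AlgEquiv.mul_apply]
      have hZW : Z ∈ W d (sq τ a) (sq τ b) := by
        have : Z = ∑ j ∈ range n, ((τ ^ j)⁻¹ c) • Phi τ j X := by
          funext i
          rw [Finset.sum_apply]
          rfl
        rw [this]
        exact Submodule.sum_mem _ fun j _ => Submodule.smul_mem _ _ (Phi_mem hX j)
      have hZU : Z 0 ∈ U τ d a b := by
        have h7 := hZW 0
        rw [zero_add, zero_add, hZ2 d, hZ1 0] at h7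
        rw [mem_U]
        simp only [sq, pow_zero, AlgEquiv.one_apply] at h7
        exact h7
      have hZs : Z = sq τ (Z 0) := funext hZ2
      have h8 := hker (hsp (Z 0) hZU)
      rw [LinearMap.mem_ker] at h8
      rw [← h8]
      have h9 : (⟨sq τ (Z 0), sq_mem hZU⟩ : W d (sq τ a) (sq τ b)) =
          ∑ j ∈ range n, ((τ ^ j)⁻¹ c) • (⟨Phi τ j X, Phi_mem hX j⟩ : W d (sq τ a) (sq τ b)) := by
        apply Subtype.ext
        rw [Submodule.coe_sum]
        funext i
        rw [Finset.sum_apply]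
        exact (congrFun hZs i).symm
      rw [h9, map_sum]
      apply sum_congr rfl
      intro j _
      rw [map_smul, smul_eq_mul]
    -- independence of the automorphisms
    have hinj : Function.Injective (fun j : Fin n => (((τ ^ (j : ℕ))⁻¹ : K ≃ₐ[k] K) : K →* K)) := by
      intro i j hij
      have h7 : (τ ^ (i : ℕ))⁻¹ = (τ ^ (j : ℕ))⁻¹ := by
        ext x
        exact DFunLike.congr_fun hij x
      have h8 := inj_pow hτ (by simp [← hn]) (by simp [← hn]) (inv_injective h7)
      exact Fin.ext h8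
    have hLI := (linearIndependent_monoidHom K K).comp _ hinj
    rw [Fintype.linearIndependent_iff] at hLI
    have hn0 : 0 < n := Module.finrank_pos
    have h7 := hLI (fun j => φ ⟨Phi τ j X, Phi_mem hX j⟩) (by
      funext c
      rw [Finset.sum_apply]
      have h8 := h6 c
      rw [← Fin.sum_univ_eq_sum_range (fun j => (τ ^ j)⁻¹ c * φ ⟨Phi τ j X, Phi_mem hX j⟩) n] at h8
      rw [Pi.zero_apply, ← h8]
      apply sum_congr rfl
      intro j _
      show φ _ * ((τ ^ (j : ℕ))⁻¹ c) = _
      ring) ⟨0, hn0⟩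
    have h8 : (⟨Phi τ 0 X, Phi_mem hX 0⟩ : W d (sq τ a) (sq τ b)) = ⟨X, hX⟩ := by
      apply Subtype.ext
      funext i
      simp [Phi]
    show φ ⟨X, hX⟩ = 0
    rw [← h8]
    exact h7
  have h7 := finrank_range_le_card (R := K) v
  rw [Set.finrank, htop, finrank_top, h1, Fintype.card_fin] at h7
  exact h7

end Pool.Agent.N816.Lin
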