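import Mathlib
import Pool.Agent.N816.Lin.A
import Pool.Agent.N816.Lin.B
import Pool.Agent.N816.Lin.C

/-!
# The two directions, in terms of the polynomial `Pol`
-/

set_option autoImplicit false

namespace Pool.Agent.N816.Lin

open Finset Polynomial

variable {k K : Type*} [Field k] [Field K] [Algebra k K] [FiniteDimensional k K] [IsGalois k K]

/-- The gauge. -/
def lam (τ : K ≃ₐ[k] K) (a : K) (i : ℕ) : K := ∏ j ∈ range i, sq τ a j

/-- The parameter. -/
def bet (τ : K ≃ₐ[k] K) (d : ℕ) (a b : K) : K := - (b * ∏ j ∈ Icc 1 (d - 1), (τ ^ j) a)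

omit [FiniteDimensional k K] [IsGalois k K] in
lemma sq_ne {τ : K ≃ₐ[k] K} {a : K} (ha : a ≠ 0) (i : ℕ) : sq τ a i ≠ 0 := by
  simp only [sq]
  exact (map_ne_zero_iff _ (τ ^ i).injective).2 ha

omit [FiniteDimensional k K] [IsGalois k K] in
lemma lam_ne {τ : K ≃ₐ[k] K} {a : K} (ha : a ≠ 0) (i : ℕ) : lam τ a i ≠ 0 :=
  prod_ne_zero_iff.2 fun j _ => sq_ne ha j

omit [FiniteDimensional k K] [IsGalois k K] in
lemma lam_add (τ : K ≃ₐ[k] K) (a : K) (i m : ℕ) :
    lam τ a (i + m) = lam τ a i * ∏ j ∈ range m, sq τ a (i + j) := by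
  simp only [lam]
  rw [prod_range_add]

lemma lam_per {τ : K ≃ₐ[k] K} (hτ : ∀ g : K ≃ₐ[k] K, g ∈ Subgroup.zpowers τ) (a : K) (i : ℕ) :
    lam τ a (i + Module.finrank k K) = algebraMap k K (Algebra.norm k a) * lam τ a i := by
  rw [add_comm, lam_add]
  congr 1
  · exact prod_norm hτ a
  · simp only [lam]
    apply prod_congr rfl
    intro j _
    rw [add_comm, sq_per]

omit [FiniteDimensional k K] [IsGalois k K] in
/-- The gauge transformation. -/
lemma gauge {τ : K ≃ₐ[k] K} {d : ℕ} (hd : 2 ≤ d) {a b : K} (ha : a ≠ 0) {X : ℕ → K}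
    (hX : X ∈ W d (sq τ a) (sq τ b)) :
    G d (sq τ (bet τ d a b)) (fun i => X i / lam τ a i) := by
  intro i
  have h1 := lam_ne (τ := τ) ha i
  have h2 := hX i
  have e1 : lam τ a (i + 1) = lam τ a i * sq τ a i := by
    rw [lam_add]; simp
  have e2 : lam τ a (i + d) = lam τ a (i + 1) * ∏ j ∈ Icc 1 (d - 1), sq τ a (i + j) := by
    have : i + d = i + 1 + (d - 1) := by omega
    rw [this, lam_add]
    congr 1
    rw [← Ico_succ_right_eq_Icc, Nat.succ_eq_succ, Nat.succ_eq_add_one, prod_Ico_eq_prod_range]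
    have : d - 1 + 1 - 1 = d - 1 := by omega
    rw [this]
    apply prod_congr rfl
    intro j _
    congr 1; ring
  have e3 : sq τ (bet τ d a b) i = - (sq τ b i * ∏ j ∈ Icc 1 (d - 1), sq τ a (i + j)) := by
    simp only [sq, bet]
    rw [map_neg, map_mul, map_prod]
    congr 2
    apply prod_congr rfl
    intro j _
    rw [pow_add, AlgEquiv.mul_apply]
  have h3 := sq_ne (τ := τ) ha i
  have h4 : lam τ a (i + d) ≠ 0 := lam_ne ha _
  have h5 : ∏ j ∈ Icc 1 (d - 1), sq τ a (i + j) ≠ 0 := prod_ne_zero_iff.2 fun j _ => sq_ne ha _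
  show X i / lam τ a i = X (i + 1) / lam τ a (i + 1) +
    sq τ (bet τ d a b) i * (X (i + d) / lam τ a (i + d))
  rw [e3, e2, e1, h2]
  field_simp
  ring

/-- Periodic with period `n` implies periodic with all the multiples. -/
lemma per_mul {X : ℕ → K} {n : ℕ} (h : ∀ i, X (i + n) = X i) (i m : ℕ) : X (i + m * n) = X i := by
  induction m with
  | zero => simp
  | succ m ih =>
    have : i + (m + 1) * n = i + m * n + n := by ring
    rw [this, h, ih]

/-- The forward direction. -/
lemma forward {τ : K ≃ₐ[k] K} (hτ : ∀ g : K ≃ₐ[k] K, g ∈ Subgroup.zpowers τ) {d : ℕ}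
    (hd : 3 ≤ d) (hn : Module.finrank k K = d ^ 2 - 1) {a b : K}
    (h : Module.finrank k (U τ d a b) = d) :
    Algebra.norm k a = (-1) ^ (d - 1) ∧ (τ ^ (d - 1)) (bet τ d a b) = bet τ d a b ∧
      bet τ d a b ≠ 0 ∧
      ∀ m, m < d → (Pol d (sq τ (bet τ d a b))).coeff m = (-1) ^ m := by
  have hdd : d ^ 2 = 1 + (d ^ 2 - 1) := by
    have : 1 ≤ d ^ 2 := Nat.one_le_pow _ _ (by omega)
    omega
  have hn2 : d * d = 1 + Module.finrank k K := by rw [hn, ← hdd]; ring
  -- `b ≠ 0`
  have hb : b ≠ 0 := by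
    rintro rfl
    by_cases hU : ∀ x ∈ U τ d a 0, x = 0
    · have : U τ d a 0 = ⊥ := (Submodule.eq_bot_iff _).2 hU
      rw [this, finrank_bot] at h
      omega
    · push Not at hU
      obtain ⟨x, hx, hx0⟩ := hU
      have h1 : Module.finrank k (U τ d a 0) ≤ 1 := by
        apply finrank_le_one (⟨x, hx⟩ : U τ d a 0)
        rintro ⟨y, hy⟩
        have h2 : τ (y / x) = y / x := by
          rw [mem_U] at hx hy
          rw [map_div₀, hx, hy]
          by_cases ha : a = 0
          · exfalso
            rw [ha] at hx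
            have : τ x = 0 := by rw [hx]; ring
            exact hx0 ((map_eq_zero_iff _ τ.injective).1 this)
          · have : x ≠ 0 := hx0
            field_simp
            ring
        obtain ⟨c, hc⟩ := fixed hτ h2
        refine ⟨c, Subtype.ext ?_⟩
        show c • x = y
        rw [Algebra.smul_def, hc]
        field_simp
      omega
  have hB := sq_ne (τ := τ) hb
  have hper := periodic_of_finrank hτ (by omega) hb h
  -- `a ≠ 0`
  have ha : a ≠ 0 := by
    rintro rfl
    set v : ℕ → K := fun i => if i = 0 then 1 else 0 with hv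
    have hX := ext_mem (by omega : 2 ≤ d) (sq τ (0 : K)) (sq τ b) v hB
    have h0 : ∀ i, 1 ≤ i → ext d (by omega : 2 ≤ d) (sq τ (0 : K)) (sq τ b) v i = 0 := by
      intro i
      induction i using Nat.strong_induction_on with
      | _ i ih =>
        intro hi
        by_cases hid : i < d
        · rw [ext_lt _ _ _ _ hid, hv]
          simp only
          rw [if_neg (by omega)]
        · have h1 := hX (i - d)
          have h2 : i - d + d = i := by omega
          rw [h2, ih (i - d + 1) (by omega) (by omega)] at h1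
          have h3 : sq τ (0 : K) (i - d) = 0 := by simp [sq]
          rw [h3, zero_mul, zero_add] at h1
          rcases mul_eq_zero.1 h1.symm with h4 | h4
          · exact absurd h4 (hB _)
          · exact h4
    have h1 := hper _ hX 0
    rw [h0 _ (by rw [zero_add]; exact Module.finrank_pos), ext_lt _ _ _ _ (by omega)] at h1
    simp [hv] at h1
  have hA := sq_ne (τ := τ) ha
  -- the first special solution
  have hc1 : ∀ X ∈ W d (sq τ a) (sq τ b), (∀ j : Fin d, X (d * (j : ℕ)) = 0) → X = 0 := by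
    intro X hX h0
    have h1 : ∀ m, X (d * m) = 0 := by
      intro m
      induction m using Nat.strong_induction_on with
      | _ m ih =>
        by_cases hm : m < d
        · exact h0 ⟨m, hm⟩
        · have e1 : d * m = d * (m - d) + 1 + Module.finrank k K := by
            rw [add_assoc, ← hn2, ← mul_add]
            congr 1; omega
          rw [e1, hper X hX, hX, ih (m - d) (by omega)]
          have e2 : d * (m - d) + d = d * (m - d + 1) := by ring
          rw [e2, ih (m - d + 1) (by omega)]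
          ring
    funext i
    have h2 := h1 (d * i)
    have e3 : d * (d * i) = i + i * Module.finrank k K := by
      rw [← mul_assoc, hn2]; ring
    rw [e3, per_mul (hper X hX)] at h2
    exact h2
  obtain ⟨X, hX, hXc⟩ := exists_coord (by omega) hB hc1 (fun j => if (j : ℕ) = 0 then 1 else 0)
  have hX0 : X 0 = 1 := by
    have := hXc ⟨0, by omega⟩
    simpa using this
  have hXz : ∀ j, 1 ≤ j → j < d → X (d * j) = 0 := by
    intro j h1 h2
    have := hXc ⟨j, h2⟩
    simp only at this
    rw [this, if_neg (by omega)]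
  have hXp : X (d * d) = X 1 := by rw [hn2, hper X hX]
  have hsp := special (by omega) hX hX0 hXz hXp
  -- the parameter is a norm
  have hbet : bet τ d a b = ∏ m ∈ range (d + 1), (τ ^ ((d - 1) * m)) b := by
    have e1 : ∏ t ∈ range d, sq τ a t = sq τ a 0 * ∏ j ∈ Icc 1 (d - 1), (τ ^ j) a := by
      have : d = 1 + (d - 1) := by omega
      conv_lhs => rw [this]
      rw [prod_range_add, prod_range_one]
      congr 1
      rw [← Ico_succ_right_eq_Icc, Nat.succ_eq_succ, Nat.succ_eq_add_one,
        prod_Ico_eq_prod_range]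
      rfl
    have e2 : ∏ t ∈ range d, sq τ b (t + d * (d - 1 - t)) =
        ∏ m ∈ range d, (τ ^ ((d - 1) * (m + 1))) b := by
      rw [← prod_range_reflect]
      apply prod_congr rfl
      intro m hm
      have := mem_range.1 hm
      simp only [sq]
      congr 2
      have e3 : d - 1 - (d - 1 - m) = m := by omega
      rw [e3]
      obtain ⟨c, rfl⟩ : ∃ c, d = c + 1 := ⟨d - 1, by omega⟩
      have e4 : c + 1 - 1 - m + m = c := by omega
      simp only [Nat.add_sub_cancel]
      have e5 : c - m + m = c := by omega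
      nlinarith
    rw [e1, e2] at hsp
    have h1 : sq τ a 0 ≠ 0 := hA 0
    have h2 : ∏ j ∈ Icc 1 (d - 1), (τ ^ j) a = - ∏ m ∈ range d, (τ ^ ((d - 1) * (m + 1))) b := by
      apply mul_left_cancel₀ h1
      linear_combination hsp
    rw [bet, h2, prod_range_succ' _ d]
    simp only [mul_zero, pow_zero, AlgEquiv.one_apply]
    ring
  have hbne : bet τ d a b ≠ 0 := by
    rw [hbet]
    exact prod_ne_zero_iff.2 fun m _ => (map_ne_zero_iff _ (τ ^ _).injective).2 hb
  have hbfix : (τ ^ (d - 1)) (bet τ d a b) = bet τ d a b := by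
    rw [hbet, map_prod]
    have e1 : ∀ m, (τ ^ (d - 1)) ((τ ^ ((d - 1) * m)) b) = (τ ^ ((d - 1) * (m + 1))) b := by
      intro m
      rw [← AlgEquiv.mul_apply, ← pow_add]
      congr 2; ring
    simp_rw [e1]
    have h1 := prod_range_succ (fun m => (τ ^ ((d - 1) * m)) b) (d + 1)
    have h2 := prod_range_succ' (fun m => (τ ^ ((d - 1) * m)) b) (d + 1)
    have e2 : (τ ^ ((d - 1) * (d + 1))) b = (τ ^ ((d - 1) * 0)) b := by
      have : (d - 1) * (d + 1) = Module.finrank k K := by
        rw [hn]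
        obtain ⟨c, rfl⟩ : ∃ c, d = c + 1 := ⟨d - 1, by omega⟩
        simp only [Nat.add_sub_cancel]
        have : (c + 1) ^ 2 = c * (c + 1 + 1) + 1 := by ring
        rw [this, Nat.add_sub_cancel]
      rw [this, pow_finrank, mul_zero, pow_zero]
    rw [h1, e2] at h2
    have h3 : (τ ^ ((d - 1) * 0)) b ≠ 0 := by simpa using hb
    exact (mul_right_cancel₀ h3 h2).symm
  have hbper : ∀ i, sq τ (bet τ d a b) (i + (d - 1)) = sq τ (bet τ d a b) i := by
    intro i
    simp only [sq]
    rw [pow_add, AlgEquiv.mul_apply, hbfix]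
  have hbne' : ∀ i, sq τ (bet τ d a b) i ≠ 0 := sq_ne hbne
  -- the second special solution
  have hc2 : ∀ X ∈ W d (sq τ a) (sq τ b), (∀ s : Fin d, X ((s : ℕ) * (d - 1)) = 0) → X = 0 := by
    intro X hX h0
    have h1 := G_zero' (by omega) hbper hbne' (gauge (by omega) ha hX) (fun s hs => by
      show X (s * (d - 1)) / _ = 0
      rw [h0 ⟨s, hs⟩, zero_div])
    funext i
    rcases div_eq_zero_iff.1 (h1 i) with h2 | h2
    · exact h2
    · exact absurd h2 (lam_ne ha i)
  obtain ⟨Z, hZ, hZc⟩ := exists_coord (by omega) hB hc2 (fun j => if (j : ℕ) = 0 then 1 else 0)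
  have hZ0 : Z 0 = 1 := by
    have := hZc ⟨0, by omega⟩
    simpa using this
  have hZz : ∀ s, 1 ≤ s → s < d → Z (s * (d - 1)) = 0 := by
    intro j h1 h2
    have := hZc ⟨j, h2⟩
    simp only at this
    rw [this, if_neg (by omega)]
  have hN : algebraMap k K (Algebra.norm k a) ≠ 0 := by
    rw [← prod_norm hτ]
    exact prod_ne_zero_iff.2 fun i _ => hA i
  obtain ⟨h1, h2⟩ := coeff_of_special (by omega) hbper (gauge (by omega) ha hZ) hN
    (fun s => by
      show Z ((s + (d + 1)) * (d - 1)) / lam τ a ((s + (d + 1)) * (d - 1)) =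
        (algebraMap k K (Algebra.norm k a))⁻¹ * (Z (s * (d - 1)) / lam τ a (s * (d - 1)))
      have e1 : (s + (d + 1)) * (d - 1) = s * (d - 1) + Module.finrank k K := by
        rw [hn]
        obtain ⟨c, rfl⟩ : ∃ c, d = c + 1 := ⟨d - 1, by omega⟩
        simp only [Nat.add_sub_cancel]
        have : (c + 1) ^ 2 = c * (c + 1 + 1) + 1 := by ring
        rw [this, Nat.add_sub_cancel]
        ring
      rw [e1, hper Z hZ, lam_per hτ]
      have := lam_ne (τ := τ) ha (s * (d - 1))
      field_simp)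
    (by show Z 0 / lam τ a 0 = 1; simp [lam, hZ0])
    (fun s h1 h2 => by
      show Z (s * (d - 1)) / _ = 0
      rw [hZz s h1 h2, zero_div])
  refine ⟨?_, hbfix, hbne, h2⟩
  apply (algebraMap k K).injective
  rw [h1, map_pow, map_neg, map_one]

/-- The backward direction. -/
lemma backward {τ : K ≃ₐ[k] K} (hτ : ∀ g : K ≃ₐ[k] K, g ∈ Subgroup.zpowers τ) {d : ℕ}
    (hd : 3 ≤ d) (hn : Module.finrank k K = d ^ 2 - 1) {a b : K}
    (hN : Algebra.norm k a = (-1) ^ (d - 1)) (hfix : (τ ^ (d - 1)) (bet τ d a b) = bet τ d a b)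
    (hne : bet τ d a b ≠ 0)
    (hco : ∀ m, m < d → (Pol d (sq τ (bet τ d a b))).coeff m = (-1) ^ m) :
    Module.finrank k (U τ d a b) = d := by
  have hb : b ≠ 0 := by
    rintro rfl
    apply hne
    simp [bet]
  have ha : a ≠ 0 := by
    rintro rfl
    rw [Algebra.norm_zero] at hN
    have h1 : ((-1 : k)) ^ (d - 1) ≠ 0 := pow_ne_zero _ (by simp)
    exact h1 hN.symm
  have hbper : ∀ i, sq τ (bet τ d a b) (i + (d - 1)) = sq τ (bet τ d a b) i := by
    intro i
    simp only [sq]
    rw [pow_add, AlgEquiv.mul_apply, hfix]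
  apply le_antisymm (finrank_le hτ (by omega) hb)
  apply le_finrank hτ (by omega) hb
  intro X hX i
  have h1 := quasi_of_coeff (by omega) hbper (gauge (by omega) ha hX) hco i
  have e1 : i + (d + 1) * (d - 1) = i + Module.finrank k K := by
    rw [hn]
    obtain ⟨c, rfl⟩ : ∃ c, d = c + 1 := ⟨d - 1, by omega⟩
    simp only [Nat.add_sub_cancel]
    have : (c + 1) ^ 2 = c * (c + 1 + 1) + 1 := by ring
    rw [this, Nat.add_sub_cancel]
    ring
  rw [e1] at h1
  rw [lam_per hτ, hN, map_pow, map_neg, map_one] at h1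
  have h2 := lam_ne (τ := τ) ha i
  have h3 : ((-1 : K)) ^ (d - 1) ≠ 0 := pow_ne_zero _ (by simp)
  have h4 : ((-1 : K)) ^ (d - 1) * (-1) ^ (d - 1) = 1 := by rw [← mul_pow]; simp
  field_simp at h1
  rw [h1, pow_two, h4, one_mul]

end Pool.Agent.N816.Lin
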