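import Mathlib
import Pool.Agent.N816.Lin.A
import Pool.Agent.N816.Lin.B
import Pool.Agent.N816.Lin.C

/-!
# The classification of the parameter
-/

set_option autoImplicit false

namespace Pool.Agent.N816.Lin

open Finset Polynomial

section poly

variable {K : Type*} [Field K]

/-- `∑ (-X)^m`. -/
noncomputable def S (K : Type*) [Field K] (d : ℕ) : K[X] := ∑ m ∈ range d, (-X) ^ m

lemma S_eq (d : ℕ) : S K d = ∑ m ∈ range d, C ((-1 : K) ^ m) * X ^ m := by
  apply sum_congr rfl
  intro m _
  rw [neg_pow, C_pow, C_neg, C_1]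

lemma coeff_S {d m : ℕ} (h : m < d) : (S K d).coeff m = (-1) ^ m := by
  rw [S_eq, finsetSum_coeff, sum_eq_single_of_mem m (mem_range.2 h)]
  · rw [coeff_C_mul_X_pow, if_pos rfl]
  · intro j _ hj
    rw [coeff_C_mul_X_pow, if_neg (Ne.symm hj)]

lemma Pol_eq_S {d : ℕ} (hd : 1 ≤ d) (β : ℕ → K) :
    (∀ m, m < d → (Pol d β).coeff m = (-1) ^ m) ↔ Pol d β = S K d := by
  constructor
  · intro h
    rw [(Pol d β).as_sum_range' d (natDegree_Pol hd β), S_eq]
    apply sum_congr rfl
    intro m hm
    rw [h m (mem_range.1 hm), C_mul_X_pow_eq_monomial]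
  · intro h m hm
    rw [h, coeff_S hm]

lemma mul_S (d : ℕ) : (1 + X) * S K d = 1 - (-X) ^ d := by
  have := geom_sum_mul (-X : K[X]) d
  rw [S]
  linear_combination -this

lemma eval_S (d : ℕ) (x : K) : (1 + x) * (S K d).eval x = 1 - (-x) ^ d := by
  have := congrArg (eval x) (mul_S (K := K) d)
  simpa using this

lemma Pol_one {d : ℕ} {β : ℕ → K} (hβ : ∀ i, β i = 1) : Pol d β = (1 + X) ^ (d - 1) := by
  rw [Pol]
  simp [hβ]

lemma pow_of_eq {p : ℕ} [Fact p.Prime] [CharP K p] {d : ℕ} (hd : 1 ≤ d)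
    (h : (1 + X : K[X]) ^ d = 1 - (-X) ^ d) : ∃ e, d = p ^ e := by
  have hp : p.Prime := Fact.out
  obtain ⟨e, m, hm, hdm⟩ := Nat.exists_eq_pow_mul_and_not_dvd (by omega : d ≠ 0) p hp.ne_one
  refine ⟨e, ?_⟩
  have hpe : 0 < p ^ e := pow_pos hp.pos _
  by_cases hm1 : m = 1
  · rw [hdm, hm1, mul_one]
  · exfalso
    have hm0 : m ≠ 0 := by rintro rfl; simp at hm
    have h1 : (1 + X : K[X]) ^ d = expand K (p ^ e) ((1 + X) ^ m) := by
      rw [hdm, pow_mul, add_pow_char_pow, one_pow, map_pow, map_add, map_one, expand_X]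
    have h2 : ((1 + X : K[X]) ^ d).coeff (1 * p ^ e) = m := by
      rw [h1, coeff_expand_mul hpe, coeff_one_add_X_pow, Nat.choose_one_right]
    have h3 : (1 - (-X : K[X]) ^ d).coeff (1 * p ^ e) = 0 := by
      rw [coeff_sub, neg_pow, ← C_1, ← C_neg, ← C_pow, coeff_C_mul_X_pow, coeff_C,
        if_neg (by omega), if_neg, sub_zero]
      intro h4
      rw [hdm] at h4
      have : p ^ e * 1 < p ^ e * m := Nat.mul_lt_mul_of_pos_left (by omega) hpe
      omega
    rw [h, h3] at h2
    have h4 : ((m : ℕ) : K) = 0 := h2.symm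
    rw [CharP.cast_eq_zero_iff K p] at h4
    exact hm h4

lemma eq_of_pow {p : ℕ} [Fact p.Prime] [CharP K p] (e : ℕ) :
    (1 + X : K[X]) ^ (p ^ e) = 1 - (-X) ^ (p ^ e) := by
  have h := sub_pow_char_pow (p := p) (1 : K[X]) (-X) (n := e)
  rw [one_pow] at h
  rw [← h, sub_neg_eq_add]

/-- The elements of the sequence are different nontrivial roots of unity. -/
lemma roots_of_S {d : ℕ} (hd : 3 ≤ d) {β : ℕ → K} (hne : ∀ i, β i ≠ 0) (h1 : ∀ i, β i ≠ 1)
    (h : Pol d β = S K d) : ((d : ℕ) : K) ≠ 0 ∧ (∀ r, r < d - 1 → (β r) ^ d = 1) ∧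
      (∀ r s, r < d - 1 → s < d - 1 → r ≠ s → β r ≠ β s) := by
  have hroot : ∀ r, r < d - 1 → (β r) ^ d = 1 := by
    intro r hr
    have h2 := eval_S d (-(β r)⁻¹)
    rw [← h, Pol, eval_prod, prod_eq_zero (mem_range.2 hr)] at h2
    · rw [mul_zero, neg_neg, inv_pow] at h2
      have h3 : ((β r) ^ d)⁻¹ = 1 := by linear_combination h2
      exact inv_eq_one.1 h3
    · simp [hne r]
  have hdne : ((d : ℕ) : K) ≠ 0 := by
    have h2 : (S K d).eval (-1) = d := by
      rw [S, eval_finsetSum]
      simp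
    rw [← h2, ← h, Pol, eval_prod]
    apply prod_ne_zero_iff.2
    intro r _
    have := h1 r
    simp only [eval_add, eval_one, eval_mul, eval_C, eval_X]
    intro h3
    apply this
    linear_combination -h3
  refine ⟨hdne, hroot, ?_⟩
  intro r s hr hs hrs heq
  have hdvd : (1 + C (β r) * X) ^ 2 ∣ 1 - (-X : K[X]) ^ d := by
    rw [← mul_S, ← h, Pol, ← mul_prod_erase _ _ (mem_range.2 hr),
      ← mul_prod_erase _ _ (mem_erase.2 ⟨Ne.symm hrs, mem_range.2 hs⟩), ← heq]
    exact ⟨(1 + X) * ∏ x ∈ ((range (d - 1)).erase r).erase s, (1 + C (β x) * X), by ring⟩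
  obtain ⟨Q, hQ⟩ := hdvd
  have h2 := congrArg (fun P => (derivative P).eval (-(β r)⁻¹)) hQ
  have h3 := hne r
  simp only [derivative_sub, derivative_one, derivative_mul, derivative_pow, derivative_neg,
    derivative_X, derivative_add, derivative_C, eval_sub, eval_add, eval_mul, eval_pow, eval_neg,
    eval_X, eval_C, eval_one, eval_zero, Nat.cast_ofNat, mul_neg, neg_neg] at h2
  have h4 : 1 + -(β r * (β r)⁻¹) = 0 := by rw [mul_inv_cancel₀ h3]; ring
  rw [h4] at h2
  have h5 : (d : K) * ((β r)⁻¹ ^ (d - 1)) = 0 := by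
    simpa using h2
  rcases mul_eq_zero.1 h5 with h6 | h6
  · exact hdne h6
  · exact (pow_ne_zero _ (inv_ne_zero h3)) h6

end poly

section cls

open FiniteField

variable {k K : Type*} [Field k] [Fintype k] [Field K] [Finite K] [Algebra k K]

lemma frob_pow (m : ℕ) (x : K) :
    ((frobeniusAlgEquivOfAlgebraic k K) ^ m) x = x ^ (Fintype.card k) ^ m := by
  rw [AlgEquiv.coe_pow, coe_frobeniusAlgEquivOfAlgebraic_iterate]

lemma pow_fix {d : ℕ} (hd : 0 < d) {β : K} (hβ : β ^ d = 1) {o : ℕ}
    (ho : ((Fintype.card k : ℕ) : ZMod d) ^ o = 1) (τ : K ≃ₐ[k] K) : (τ ^ o) β = β := by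
  obtain ⟨s, hs⟩ := (bijective_frobeniusAlgEquivOfAlgebraic_pow k K).2 τ
  have h1 : ((frobeniusAlgEquivOfAlgebraic k K) ^ o) β = β := by
    rw [frob_pow]
    have h2 : (Fintype.card k) ^ o ≡ 1 [MOD d] := by
      rw [← ZMod.natCast_eq_natCast_iff]
      push_cast
      exact ho
    have h3 : (Fintype.card k) ^ o ≡ 1 [MOD orderOf β] :=
      h2.of_dvd (orderOf_dvd_of_pow_eq_one hβ)
    have h4 : IsOfFinOrder β := isOfFinOrder_iff_pow_eq_one.2 ⟨d, hd, hβ⟩
    have h5 := h4.pow_eq_pow_iff_modEq.2 h3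
    rwa [pow_one] at h5
  have h2 : ∀ t : ℕ, (((frobeniusAlgEquivOfAlgebraic k K) ^ o) ^ t) β = β := by
    intro t
    induction t with
    | zero => simp
    | succ t ih => rw [pow_succ, AlgEquiv.mul_apply, h1, ih]
  rw [← hs]
  show (((frobeniusAlgEquivOfAlgebraic k K) ^ (s : ℕ)) ^ o) β = β
  rw [← pow_mul, mul_comm, pow_mul]
  exact h2 s

lemma cls_forward {τ : K ≃ₐ[k] K} {d : ℕ} (hd : 3 ≤ d) {β : K} (hne : β ≠ 0)
    (hco : ∀ m, m < d → (Pol d (sq τ β)).coeff m = (-1) ^ m) :
    ((∃ e, d = ringChar k ^ e) ∧ β = 1) ∨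
    ((d.Prime ∧ d ≠ ringChar k ∧ orderOf ((Fintype.card k : ℕ) : ZMod d) = d - 1) ∧
      β ^ d = 1 ∧ β ≠ 1) := by
  have hpprime : (ringChar k).Prime := CharP.char_is_prime k (ringChar k)
  have : Fact (ringChar k).Prime := ⟨hpprime⟩
  have : CharP K (ringChar k) := charP_of_injective_algebraMap' k (ringChar k)
  have hPS := (Pol_eq_S (by omega) _).1 hco
  by_cases hβ : β = 1
  · left
    refine ⟨?_, hβ⟩
    apply pow_of_eq (K := K) (by omega)
    rw [← mul_S, ← hPS, Pol_one (fun i => by simp [sq, hβ])]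
    conv_lhs => rw [show d = d - 1 + 1 by omega, pow_succ']
  · right
    have hne' : ∀ i, sq τ β i ≠ 0 := fun i => (map_ne_zero_iff _ (τ ^ i).injective).2 hne
    have h1' : ∀ i, sq τ β i ≠ 1 := by
      intro i h
      apply hβ
      apply (τ ^ i).injective
      rw [map_one]; exact h
    obtain ⟨hdne, hroot, hinj⟩ := roots_of_S hd hne' h1' hPS
    have hβd : β ^ d = 1 := by simpa [sq] using hroot 0 (by omega)
    have hdp : d ≠ ringChar k := by
      intro h
      apply hdne
      rw [h]
      exact CharP.cast_eq_zero K (ringChar k)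
    -- the order of the nontrivial roots
    have hfin : IsOfFinOrder β := isOfFinOrder_iff_pow_eq_one.2 ⟨d, by omega, hβd⟩
    set t := orderOf β with ht
    have ht0 : 0 < t := hfin.orderOf_pos
    have hsub : d ≤ t := by
      classical
      set Z : Finset K := insert 1 ((range (d - 1)).image (sq τ β)) with hZ
      have hZc : Z.card = d := by
        rw [hZ, card_insert_of_notMem, card_image_of_injOn, card_range]
        · omega
        · intro r hr s hs hrs
          by_contra hne2
          exact hinj r s (by simpa using hr) (by simpa using hs) hne2 hrs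
        · rw [mem_image]
          rintro ⟨r, _, hr⟩
          exact h1' r hr
      have hZr : Z.val ⊆ (X ^ t - 1 : K[X]).roots := by
        intro z hz
        rw [mem_roots', IsRoot]
        refine ⟨X_pow_sub_C_ne_zero ht0 (1 : K), ?_⟩
        have hz' : z ∈ Z := hz
        rw [hZ, mem_insert, mem_image] at hz'
        rcases hz' with rfl | ⟨r, _, rfl⟩
        · simp
        · simp only [eval_sub, eval_pow, eval_X, eval_one, sq]
          rw [← map_pow, ht, pow_orderOf_eq_one, map_one, sub_self]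
      have h2 := card_le_degree_of_subset_roots hZr
      have h3 : (X ^ t - 1 : K[X]).natDegree = t := natDegree_X_pow_sub_C (r := (1 : K))
      omega
    have htd : t = d := by
      have := Nat.le_of_dvd (by omega) (orderOf_dvd_of_pow_eq_one hβd)
      omega
    -- every nontrivial root of unity is in the sequence
    have hall : ∀ z : K, z ^ d = 1 → z ≠ 1 → ∃ r, sq τ β r = z := by
      intro z hz hz1
      have hz0 : z ≠ 0 := by
        rintro rfl
        rw [zero_pow (by omega)] at hz
        exact zero_ne_one hz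
      have h2 := eval_S d (-z⁻¹)
      rw [neg_neg, inv_pow, hz, inv_one, sub_self] at h2
      rcases mul_eq_zero.1 h2 with h3 | h3
      · exfalso
        apply hz1
        have h4 : z⁻¹ = 1 := by linear_combination -h3
        exact inv_eq_one.1 h4
      · rw [← hPS, Pol, eval_prod, prod_eq_zero_iff] at h3
        obtain ⟨r, _, hr⟩ := h3
        refine ⟨r, ?_⟩
        simp only [eval_add, eval_one, eval_mul, eval_C, eval_X] at hr
        field_simp at hr
        linear_combination -hr
    have hdprime : d.Prime := by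
      obtain ⟨l, hl, hld⟩ := Nat.exists_prime_and_dvd (by omega : d ≠ 1)
      obtain ⟨c, hc⟩ := hld
      have hc0 : c ≠ 0 := by rintro rfl; omega
      have h2 : orderOf (β ^ c) = l := by
        rw [orderOf_pow_of_dvd hc0 (by rw [← ht, htd]; exact ⟨l, by rw [hc]; ring⟩), ← ht, htd, hc]
        exact Nat.mul_div_cancel _ (Nat.pos_of_ne_zero hc0)
      have h3 : β ^ c ≠ 1 := by
        intro h
        rw [h, orderOf_one] at h2
        exact hl.one_lt.ne h2
      obtain ⟨r, hr⟩ := hall (β ^ c) (by rw [← pow_mul, mul_comm, pow_mul, hβd, one_pow]) h3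
      have h4 : orderOf (sq τ β r) = t := by
        simp only [sq]
        exact orderOf_injective ((τ ^ r : K ≃ₐ[k] K) : K →* K) (τ ^ r).injective β
      rw [hr, h2, htd] at h4
      rw [← h4]; exact hl
    have : Fact d.Prime := ⟨hdprime⟩
    refine ⟨⟨hdprime, hdp, ?_⟩, hβd, hβ⟩
    have hq0 : ((Fintype.card k : ℕ) : ZMod d) ≠ 0 := by
      intro h
      rw [ZMod.natCast_eq_zero_iff] at h
      obtain ⟨m, hp, hcard⟩ := FiniteField.card k (ringChar k)
      rw [hcard] at h
      exact hdp ((Nat.prime_dvd_prime_iff_eq hdprime hpprime).1 (hdprime.dvd_of_dvd_pow h))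
    have h2 := ZMod.orderOf_dvd_card_sub_one hq0
    have h3 := Nat.le_of_dvd (by omega) h2
    have h4 : 0 < orderOf ((Fintype.card k : ℕ) : ZMod d) := by
      rcases Nat.eq_zero_or_pos (orderOf ((Fintype.card k : ℕ) : ZMod d)) with h5 | h5
      · rw [h5] at h2
        have := Nat.eq_zero_of_zero_dvd h2
        omega
      · exact h5
    by_contra hne3
    have h5 := pow_fix (k := k) (by omega) hβd (pow_orderOf_eq_one ((Fintype.card k : ℕ) : ZMod d)) τ
    exact hinj (orderOf ((Fintype.card k : ℕ) : ZMod d)) 0 (by omega) (by omega) (by omega)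
      (by simpa [sq] using h5)

lemma cls_backward {τ : K ≃ₐ[k] K} (hτ : ∀ g : K ≃ₐ[k] K, g ∈ Subgroup.zpowers τ) {d : ℕ}
    (hd : 3 ≤ d) {β : K}
    (h : ((∃ e, d = ringChar k ^ e) ∧ β = 1) ∨
    ((d.Prime ∧ d ≠ ringChar k ∧ orderOf ((Fintype.card k : ℕ) : ZMod d) = d - 1) ∧
      β ^ d = 1 ∧ β ≠ 1)) :
    (τ ^ (d - 1)) β = β ∧ β ≠ 0 ∧ ∀ m, m < d → (Pol d (sq τ β)).coeff m = (-1) ^ m := by
  have hpprime : (ringChar k).Prime := CharP.char_is_prime k (ringChar k)
  have : Fact (ringChar k).Prime := ⟨hpprime⟩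
  have : CharP K (ringChar k) := charP_of_injective_algebraMap' k (ringChar k)
  rcases h with ⟨⟨e, he⟩, rfl⟩ | ⟨⟨hdprime, hdp, hord⟩, hβd, hβ1⟩
  · refine ⟨map_one _, one_ne_zero, ?_⟩
    rw [Pol_eq_S (by omega), Pol_one (fun i => by simp [sq])]
    have h1 : (1 + X : K[X]) ≠ 0 := by
      rw [add_comm, ← C_1]; exact X_add_C_ne_zero 1
    apply mul_left_cancel₀ h1
    rw [mul_S, ← pow_succ', show d - 1 + 1 = d by omega, he]
    exact eq_of_pow e
  · have : Fact d.Prime := ⟨hdprime⟩
    have hβ0 : β ≠ 0 := by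
      rintro rfl
      rw [zero_pow (by omega)] at hβd
      exact zero_ne_one hβd
    have hordβ : orderOf β = d := orderOf_eq_prime hβd hβ1
    refine ⟨pow_fix (k := k) (by omega) hβd (by rw [← hord]; exact pow_orderOf_eq_one _) τ,
      hβ0, ?_⟩
    have hfix : ∀ m, 0 < m → m < d - 1 → (τ ^ m) β ≠ β := by
      intro m hm0 hm h1
      obtain ⟨u, _, hu⟩ := image_pow hτ (frobeniusAlgEquivOfAlgebraic k K)
      have h2 : ∀ t : ℕ, ((τ ^ m) ^ t) β = β := by
        intro t
        induction t with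
        | zero => simp
        | succ t ih => rw [pow_succ, AlgEquiv.mul_apply, h1, ih]
      have h3 : ((frobeniusAlgEquivOfAlgebraic k K) ^ m) β = β := by
        rw [← hu, ← pow_mul, mul_comm, pow_mul]
        exact h2 u
      rw [frob_pow] at h3
      have h4 : IsOfFinOrder β := isOfFinOrder_iff_pow_eq_one.2 ⟨d, by omega, hβd⟩
      have h5 : β ^ (Fintype.card k) ^ m = β ^ 1 := by rw [h3, pow_one]
      have h6 := h4.pow_eq_pow_iff_modEq.1 h5
      rw [hordβ, ← ZMod.natCast_eq_natCast_iff] at h6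
      push_cast at h6
      have h7 := orderOf_dvd_of_pow_eq_one h6
      rw [hord] at h7
      have := Nat.le_of_dvd hm0 h7
      omega
    have hinj : ∀ i j, i < j → j < d - 1 → sq τ β i ≠ sq τ β j := by
      intro i j hij hj heq
      apply hfix (j - i) (by omega) (by omega)
      simp only [sq] at heq
      apply (τ ^ i).injective
      rw [← AlgEquiv.mul_apply, ← pow_add, show i + (j - i) = j by omega]
      exact heq.symm
    have hne' : ∀ i, sq τ β i ≠ 0 := fun i => (map_ne_zero_iff _ (τ ^ i).injective).2 hβ0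
    have h1' : ∀ i, sq τ β i ≠ 1 := by
      intro i h
      apply hβ1
      apply (τ ^ i).injective
      rw [map_one]; exact h
    rw [Pol_eq_S (by omega)]
    classical
    set Z : Finset K := insert 0 ((range (d - 1)).image (fun r => -(sq τ β r)⁻¹)) with hZ
    have hZc : Z.card = d := by
      rw [hZ, card_insert_of_notMem, card_image_of_injOn, card_range]
      · omega
      · intro r hr s hs hrs
        have hr' : r < d - 1 := by simpa using hr
        have hs' : s < d - 1 := by simpa using hs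
        have h2 : sq τ β r = sq τ β s := inv_injective (neg_injective hrs)
        rcases lt_trichotomy r s with h3 | h3 | h3
        · exact absurd h2 (hinj r s h3 hs')
        · exact h3
        · exact absurd h2.symm (hinj s r h3 hr')
      · rw [mem_image]
        rintro ⟨r, _, hr⟩
        have := inv_ne_zero (hne' r)
        exact this (neg_eq_zero.1 hr)
    apply Polynomial.eq_of_degree_sub_lt_of_eval_finset_eq Z
    · rw [hZc]
      refine lt_of_le_of_lt (degree_sub_le _ _) (max_lt ?_ ?_)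
      · exact (degree_lt_iff_coeff_zero _ _).2 fun m hm =>
          coeff_eq_zero_of_natDegree_lt (lt_of_lt_of_le (natDegree_Pol (by omega) _) hm)
      · rw [degree_lt_iff_coeff_zero]
        intro m hm
        rw [S_eq, finsetSum_coeff]
        apply sum_eq_zero
        intro j hj
        rw [coeff_C_mul_X_pow, if_neg]
        have := mem_range.1 hj
        omega
    · intro x hx
      rw [hZ, mem_insert, mem_image] at hx
      rcases hx with rfl | ⟨r, hr, rfl⟩
      · rw [← coeff_zero_eq_eval_zero, ← coeff_zero_eq_eval_zero, coeff_zero_Pol,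
          coeff_S (by omega), pow_zero]
      · have h2 := eval_S d (-(sq τ β r)⁻¹)
        have h3 : (sq τ β r) ^ d = 1 := by
          simp only [sq]
          rw [← map_pow, hβd, map_one]
        rw [neg_neg, inv_pow, h3, inv_one, sub_self] at h2
        have h4 : (S K d).eval (-(sq τ β r)⁻¹) = 0 := by
          rcases mul_eq_zero.1 h2 with h5 | h5
          · exfalso
            apply h1' r
            have h6 : (sq τ β r)⁻¹ = 1 := by linear_combination -h5
            exact inv_eq_one.1 h6
          · exact h5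
        rw [h4, Pol, eval_prod, prod_eq_zero hr]
        simp [hne' r]

end cls

end Pool.Agent.N816.Lin
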